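import Pool.Agent.Lib.P50089e.Est

/-!
# The ball of `XX` is `F_σδ` in the ball of the bidual
-/

set_option autoImplicit false
open Filter Topology Set

namespace Pool.Agent.Lib.P50089e

/-- Unit ball with the weak topology. -/
abbrev BX : Type := {x : WeakSpace ℝ XX // ‖(toWeakSpace ℝ XX).symm x‖ ≤ 1}

/-- Unit ball of the bidual, as a set of functions on the dual. -/
def bb : Set ((XX →L[ℝ] ℝ) → ℝ) :=
  {z | (∀ φ ψ, z (φ + ψ) = z φ + z ψ) ∧ (∀ (c : ℝ) φ, z (c • φ) = c * z φ) ∧ ∀ φ, |z φ| ≤ ‖φ‖}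

/-- Unit ball of the bidual with the weak-star topology. -/
abbrev BB : Type := bb

/-- Underlying vector. -/
noncomputable def toX (x : BX) : XX := (toWeakSpace ℝ XX).symm x.1

lemma norm_toX (x : BX) : ‖toX x‖ ≤ 1 := x.2

/-- Element of the ball. -/
noncomputable def mkX (f : XX) (hf : ‖f‖ ≤ 1) : BX := ⟨toWeakSpace ℝ XX f, hf⟩

lemma toX_mkX (f : XX) (hf : ‖f‖ ≤ 1) : toX (mkX f hf) = f := rfl

lemma mkX_toX (x : BX) : mkX (toX x) (norm_toX x) = x := rfl

lemma toX_inj {x y : BX} (h : toX x = toX y) : x = y := Subtype.ext h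

lemma inducing_BX : IsInducing (fun (x : BX) (φ : StrongDual ℝ XX) => φ (toX x)) := by
  have h1 : IsInducing (fun (x : WeakSpace ℝ XX) (φ : StrongDual ℝ XX) =>
      φ ((toWeakSpace ℝ XX).symm x)) := ⟨rfl⟩
  exact h1.comp IsInducing.subtypeVal

lemma inducing_BB : IsInducing (fun (z : BB) (φ : StrongDual ℝ XX) => z.1 φ) :=
  IsInducing.subtypeVal

lemma continuous_BX (φ : StrongDual ℝ XX) : Continuous (fun x : BX => φ (toX x)) :=
  (continuous_apply φ).comp inducing_BX.continuous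

/-- The canonical map. -/
noncomputable def canon (x : BX) : BB :=
  ⟨fun φ => φ (toX x), fun _ _ => rfl, fun _ _ => rfl, fun φ => by
    refine (φ.le_opNorm (toX x)).trans ?_
    have := mul_le_mul_of_nonneg_left (norm_toX x) (norm_nonneg φ)
    linarith⟩

lemma canon_apply (x : BX) (φ : StrongDual ℝ XX) : (canon x).1 φ = φ (toX x) := rfl

/-- Limit of a functional along an ultrafilter of unit vectors. -/
lemma exists_Lp (p : Ultrafilter Γ) (φ : StrongDual ℝ XX) :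
    ∃ r, Tendsto (fun x => φ (e x)) p (𝓝 r) := by
  have hc : IsCompact (Set.Icc (-‖φ‖) ‖φ‖) := isCompact_Icc
  have h1 : ∀ x, φ (e x) ∈ Set.Icc (-‖φ‖) ‖φ‖ := by
    intro x
    refine abs_le.1 ?_
    refine (φ.le_opNorm (e x)).trans ?_
    have := mul_le_mul_of_nonneg_left (norm_e_le x) (norm_nonneg φ)
    linarith
  have h2 : (Set.Icc (-‖φ‖) ‖φ‖) ∈ p.map (fun x => φ (e x)) := by
    rw [Ultrafilter.mem_map]
    exact Filter.mem_of_superset Filter.univ_mem (fun x _ => h1 x)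
  obtain ⟨r, _, hr⟩ := hc.ultrafilter_le_nhds' (p.map (fun x => φ (e x))) h2
  exact ⟨r, hr⟩

/-- The limit. -/
noncomputable def Lp (p : Ultrafilter Γ) (φ : StrongDual ℝ XX) : ℝ := (exists_Lp p φ).choose

lemma Lp_spec (p : Ultrafilter Γ) (φ : StrongDual ℝ XX) :
    Tendsto (fun x => φ (e x)) p (𝓝 (Lp p φ)) := (exists_Lp p φ).choose_spec

lemma Lp_eq {p : Ultrafilter Γ} {φ : StrongDual ℝ XX} {r : ℝ}
    (h : Tendsto (fun x => φ (e x)) p (𝓝 r)) : Lp p φ = r :=
  tendsto_nhds_unique (Lp_spec p φ) h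

lemma Lp_congr {p : Ultrafilter Γ} {φ ψ : StrongDual ℝ XX}
    (h : {x | φ (e x) = ψ (e x)} ∈ p) : Lp p φ = Lp p ψ := by
  refine Lp_eq ((Lp_spec p ψ).congr' ?_)
  filter_upwards [h] with x hx
  exact Eq.symm hx

lemma Lp_zero_of {p : Ultrafilter Γ} {φ : StrongDual ℝ XX}
    (h : {x | φ (e x) = 0} ∈ p) : Lp p φ = 0 := by
  refine Lp_eq (tendsto_const_nhds.congr' ?_)
  filter_upwards [h] with x hx
  exact Eq.symm hx

/-- Cylinder of level `l`. -/
def Cyl {l : ℕ} (s : Fin l → ℕ) : Set Γ := {x | ∀ i : Fin l, x.1 i = s i}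

/-- Approximation of an element of the bidual ball. -/
def Approx (z : BB) (m : ℕ) : Prop :=
  ∃ (N : ℕ) (s : Fin N → Fin m → ℕ) (α : Fin N → ℝ) (p : Fin N → Ultrafilter Γ),
    (∀ k, Cyl (s k) ∈ p k) ∧
    ∀ φ : StrongDual ℝ XX, |z.1 φ - ∑ k, α k * Lp (p k) φ| ≤ ‖φ‖ * (1 / (m + 1))

/-- The approximants. -/
def Sset (m : ℕ) (c : (N : ℕ) × ℕ × (Fin N → Fin m → ℕ)) : Set BX :=
  {x | ∃ (a : Fin c.1 → ℝ) (y : Fin c.1 → Γ), (∀ k, |a k| ≤ c.2.1) ∧
    (∀ k, y k ∈ Cyl (c.2.2 k)) ∧ ‖toX x - ∑ k, a k • e (y k)‖ ≤ 1 / (m + 1)}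

lemma mem_Sset (m : ℕ) (x : BX) : ∃ c, x ∈ Sset m c := by
  classical
  obtain ⟨S, a, hS⟩ := exists_approx (toX x) (ε := 1 / ((m : ℝ) + 1)) (by positivity)
  obtain ⟨M, hM⟩ := exists_nat_ge (∑ y ∈ S, |a y|)
  let eq := S.equivFin
  refine ⟨⟨S.card, M, fun k i => ((eq.symm k).1).1 i⟩, fun k => a (eq.symm k).1,
    fun k => (eq.symm k).1, ?_, ?_, ?_⟩
  · intro k
    refine le_trans ?_ hM
    exact Finset.single_le_sum (f := fun y => |a y|) (fun y _ => abs_nonneg _) (eq.symm k).2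
  · intro k i
    rfl
  · have h1 : ∑ k : Fin S.card, a (eq.symm k).1 • e (eq.symm k).1 = ∑ y ∈ S, a y • e y := by
      rw [← Finset.sum_coe_sort S (fun y => a y • e y)]
      exact Equiv.sum_comp eq.symm (fun y : S => a y.1 • e y.1)
    rw [h1]
    exact hS.le

lemma approx_of_closure (z : BB) (m : ℕ) (c : (N : ℕ) × ℕ × (Fin N → Fin m → ℕ))
    (hz : z ∈ closure (canon '' Sset m c)) : Approx z m := by
  classical
  obtain ⟨v, hv1, hv2⟩ := mem_closure_iff_ultrafilter.1 hz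
  let w : Ultrafilter BX := Ultrafilter.ofComapInfPrincipal hv1
  have hw1 : Sset m c ∈ w := Ultrafilter.ofComapInfPrincipal_mem hv1
  have hw2 : w.map canon = v := Ultrafilter.ofComapInfPrincipal_eq_of_map hv1
  have hlim : ∀ φ : StrongDual ℝ XX, Tendsto (fun x : BX => φ (toX x)) w (𝓝 (z.1 φ)) := by
    intro φ
    have h1 : Tendsto canon w (𝓝 z) := by
      change Filter.map canon (w : Filter BX) ≤ 𝓝 z
      rw [← Ultrafilter.coe_map, hw2]
      exact hv2
    have h2 : Continuous (fun z : BB => z.1 φ) :=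
      (continuous_apply φ).comp inducing_BB.continuous
    exact (h2.tendsto z).comp h1
  have hchoice : ∀ x : BX, ∃ (a : Fin c.1 → ℝ) (y : Fin c.1 → Γ), x ∈ Sset m c →
      (∀ k, |a k| ≤ c.2.1) ∧
      (∀ k, y k ∈ Cyl (c.2.2 k)) ∧ ‖toX x - ∑ k, a k • e (y k)‖ ≤ 1 / (m + 1) := by
    intro x
    by_cases hx : x ∈ Sset m c
    · obtain ⟨a, y, h⟩ := hx
      exact ⟨a, y, fun _ => h⟩
    · exact ⟨fun _ => 0, fun _ => (fun _ => 0, fun _ => 0), fun h => absurd h hx⟩
  choose a y hay using hchoice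
  have hα : ∀ k, ∃ r, Tendsto (fun x => a x k) w (𝓝 r) := by
    intro k
    have hc : IsCompact (Set.Icc (-(c.2.1 : ℝ)) c.2.1) := isCompact_Icc
    have h2 : (Set.Icc (-(c.2.1 : ℝ)) c.2.1) ∈ w.map (fun x => a x k) := by
      rw [Ultrafilter.mem_map]
      refine Filter.mem_of_superset hw1 (fun x hx => ?_)
      exact abs_le.1 ((hay x hx).1 k)
    obtain ⟨r, _, hr⟩ := hc.ultrafilter_le_nhds' (w.map (fun x => a x k)) h2
    exact ⟨r, hr⟩
  choose α hα using hα
  refine ⟨c.1, c.2.2, α, fun k => w.map (fun x => y x k), ?_, ?_⟩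
  · intro k
    rw [Ultrafilter.mem_map]
    exact Filter.mem_of_superset hw1 (fun x hx => (hay x hx).2.1 k)
  · intro φ
    have h1 : Tendsto (fun x => φ (toX x) - ∑ k, a x k * φ (e (y x k))) w
        (𝓝 (z.1 φ - ∑ k, α k * Lp (w.map (fun x => y x k)) φ)) := by
      refine (hlim φ).sub (tendsto_finsetSum _ (fun k _ => (hα k).mul ?_))
      have h3 := Lp_spec (w.map (fun x => y x k)) φ
      rw [Ultrafilter.coe_map] at h3
      exact h3.comp tendsto_map
    refine le_of_tendsto h1.abs ?_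
    filter_upwards [hw1] with x hx
    have h2 : φ (toX x) - ∑ k, a x k * φ (e (y x k)) = φ (toX x - ∑ k, a x k • e (y x k)) := by
      rw [map_sub, map_sum]
      simp only [map_smul, smul_eq_mul]
    rw [h2]
    refine (φ.le_opNorm _).trans ?_
    exact mul_le_mul_of_nonneg_left (hay x hx).2.2 (norm_nonneg _)

/-- The complement of finitely many cylinders. -/
def Dc {N l : ℕ} (s : Fin N → Fin l → ℕ) : Set Γ := {x | ∀ k, x ∉ Cyl (s k)}

lemma exists_level (p : Ultrafilter Γ) : ∃ l₀, ∀ l, l₀ ≤ l → ∀ (N : ℕ) (s : Fin N → Fin l → ℕ),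
    ∃ v : XX, ∀ φ : StrongDual ℝ XX, Lp p φ - Lp p (φ.comp (PD (Dc s))) = φ v := by
  classical
  by_cases hp : NP p
  · by_cases hc : ∀ i, ∃ a, {x : Γ | x.1 i = a} ∈ p
    · choose σ hσ using hc
      have hz : ∀ φ : StrongDual ℝ XX, Lp p φ = 0 := by
        intro φ
        refine Lp_eq ?_
        rw [Metric.tendsto_nhds]
        intro ε hε
        have h1 := not_large_of_const p hp σ hσ φ ε hε
        have h2 : ∀ᶠ x in (p : Filter Γ), ¬ ε ≤ |φ (e x)| := by
          rw [Ultrafilter.eventually_not]; exact h1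
        filter_upwards [h2] with x hx
        rw [dist_zero_right, Real.norm_eq_abs]
        exact not_le.1 hx
      exact ⟨0, fun l _ N s => ⟨0, fun φ => by rw [hz, hz, sub_zero, map_zero]⟩⟩
    · push Not at hc
      obtain ⟨i₀, hi₀⟩ := hc
      refine ⟨i₀ + 1, fun l hl N s => ⟨0, fun φ => ?_⟩⟩
      rw [map_zero, sub_eq_zero]
      have hD : Dc s ∈ p := by
        have : ∀ᶠ x in (p : Filter Γ), ∀ k : Fin N, x ∉ Cyl (s k) := by
          rw [Filter.eventually_all]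
          intro k
          rw [Ultrafilter.eventually_not]
          intro hcon
          have hcon' : Cyl (s k) ∈ p := hcon
          refine hi₀ (s k ⟨i₀, hl⟩) (Filter.mem_of_superset hcon' (fun x hx => hx ⟨i₀, hl⟩))
        exact this
      refine Lp_congr (Filter.mem_of_superset hD (fun x hx => ?_))
      change φ (e x) = φ (PD (Dc s) (e x))
      rw [PD_e_mem _ hx]
  · unfold NP at hp
    push Not at hp
    obtain ⟨x, hx⟩ := hp
    refine ⟨0, fun l _ N s => ⟨e x - PD (Dc s) (e x), fun φ => ?_⟩⟩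
    have h1 : ∀ ψ : StrongDual ℝ XX, Lp p ψ = ψ (e x) := by
      intro ψ
      refine Lp_eq (tendsto_const_nhds.congr' ?_)
      filter_upwards [hx] with y hy
      rw [mem_singleton_iff.1 hy]
    rw [h1, h1, map_sub]
    rfl

lemma norm_comp_PD_le (φ : StrongDual ℝ XX) (D : Set Γ) : ‖φ.comp (PD D)‖ ≤ ‖φ‖ := by
  refine ContinuousLinearMap.opNorm_le_bound _ (norm_nonneg _) (fun f => ?_)
  refine (φ.le_opNorm _).trans ?_
  exact mul_le_mul_of_nonneg_left (norm_PD_le D f) (norm_nonneg _)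

lemma near_of_approx (z : BB) (hz : ∀ m, Approx z m) (m : ℕ) :
    ∃ g : XX, ∀ φ : StrongDual ℝ XX, |z.1 φ - φ g| ≤ ‖φ‖ * (3 / (m + 1)) := by
  classical
  obtain ⟨N, s, α, p, _, hp2⟩ := hz m
  have hl := fun k => exists_level (p k)
  choose l₀ hl₀ using hl
  obtain ⟨l, hldef⟩ : ∃ l, l = m + ∑ k, l₀ k := ⟨_, rfl⟩
  obtain ⟨N', s', α', p', hp1', hp2'⟩ := hz l
  have hv := fun k => hl₀ k l (by
    have := Finset.single_le_sum (f := l₀) (fun i _ => Nat.zero_le _) (Finset.mem_univ k)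
    omega) N' s'
  choose v hv using hv
  refine ⟨∑ k, α k • v k, fun φ => ?_⟩
  set ψ : StrongDual ℝ XX := φ.comp (PD (Dc s')) with hψ
  have h1 : |z.1 ψ| ≤ ‖φ‖ * (1 / (m + 1)) := by
    have h2 := hp2' ψ
    have h3 : ∑ k, α' k * Lp (p' k) ψ = 0 := by
      refine Finset.sum_eq_zero (fun k _ => ?_)
      rw [Lp_zero_of, mul_zero]
      refine Filter.mem_of_superset (hp1' k) (fun x hx => ?_)
      change φ (PD (Dc s') (e x)) = 0
      have hx' : x ∉ Dc s' := fun hcon => hcon k hx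
      rw [PD_e_notMem _ hx', map_zero]
    rw [h3, sub_zero] at h2
    refine h2.trans ?_
    refine mul_le_mul (norm_comp_PD_le φ _) ?_ (by positivity) (norm_nonneg _)
    refine one_div_le_one_div_of_le (by positivity) ?_
    have : (m : ℝ) ≤ l := by rw [hldef]; push_cast; linarith [Finset.sum_nonneg (f := fun k => (l₀ k : ℝ)) (s := Finset.univ) (fun i _ => Nat.cast_nonneg _)]
    linarith
  have h4 := hp2 φ
  have h5 := hp2 ψ
  have h6 : ‖ψ‖ * (1 / ((m : ℝ) + 1)) ≤ ‖φ‖ * (1 / (m + 1)) :=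
    mul_le_mul_of_nonneg_right (norm_comp_PD_le φ _) (by positivity)
  have h7 : φ (∑ k, α k • v k) = ∑ k, α k * Lp (p k) φ - ∑ k, α k * Lp (p k) ψ := by
    rw [map_sum, ← Finset.sum_sub_distrib]
    refine Finset.sum_congr rfl (fun k _ => ?_)
    rw [map_smul, smul_eq_mul, ← hv k φ]
    ring
  have h8 : z.1 φ - φ (∑ k, α k • v k) = (z.1 φ - ∑ k, α k * Lp (p k) φ) -
      (z.1 ψ - ∑ k, α k * Lp (p k) ψ) + z.1 ψ := by
    rw [h7]; ring
  rw [h8]
  have h9 := abs_add_le ((z.1 φ - ∑ k, α k * Lp (p k) φ) - (z.1 ψ - ∑ k, α k * Lp (p k) ψ)) (z.1 ψ)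
  have h10 := abs_sub (z.1 φ - ∑ k, α k * Lp (p k) φ) (z.1 ψ - ∑ k, α k * Lp (p k) ψ)
  have h11 : ‖φ‖ * (3 / ((m : ℝ) + 1)) = 3 * (‖φ‖ * (1 / (m + 1))) := by ring
  rw [h11]
  linarith

lemma mem_range_canon_of_approx (z : BB) (hz : ∀ m, Approx z m) : z ∈ range canon := by
  have h := near_of_approx z hz
  choose g hg using h
  have hdist : ∀ m n, ‖g m - g n‖ ≤ 3 / ((m : ℝ) + 1) + 3 / (n + 1) := by
    intro m n
    refine NormedSpace.norm_le_dual_bound ℝ _ (by positivity) (fun φ => ?_)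
    rw [Real.norm_eq_abs, map_sub]
    have h1 := hg m φ
    have h2 := hg n φ
    have h3 : φ (g m) - φ (g n) = (z.1 φ - φ (g n)) - (z.1 φ - φ (g m)) := by ring
    rw [h3]
    have h4 := abs_sub (z.1 φ - φ (g n)) (z.1 φ - φ (g m))
    nlinarith [norm_nonneg φ]
  have hto : Tendsto (fun m : ℕ => 3 / ((m : ℝ) + 1)) atTop (𝓝 0) := by
    have := tendsto_one_div_add_atTop_nhds_zero_nat (𝕜 := ℝ)
    have h2 := this.const_mul 3
    simpa [div_eq_mul_inv] using h2
  have hcauchy : CauchySeq g := by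
    rw [Metric.cauchySeq_iff]
    intro ε hε
    have h1 : ∀ᶠ m : ℕ in atTop, 3 / ((m : ℝ) + 1) < ε / 2 :=
      hto.eventually_lt_const (half_pos hε)
    obtain ⟨M, hM⟩ := Filter.eventually_atTop.1 h1
    refine ⟨M, fun m hm n hn => ?_⟩
    rw [dist_eq_norm]
    have := hdist m n
    have := hM m hm
    have := hM n hn
    linarith
  obtain ⟨G, hG⟩ := cauchySeq_tendsto_of_complete hcauchy
  have hval : ∀ φ : StrongDual ℝ XX, z.1 φ = φ G := by
    intro φ
    have h1 : Tendsto (fun m => φ (g m)) atTop (𝓝 (φ G)) := (φ.continuous.tendsto G).comp hG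
    have h2 : Tendsto (fun m => φ (g m)) atTop (𝓝 (z.1 φ)) := by
      rw [tendsto_iff_dist_tendsto_zero]
      refine squeeze_zero (fun _ => dist_nonneg) (g := fun m : ℕ => ‖φ‖ * (3 / ((m : ℝ) + 1))) ?_ ?_
      · intro m
        rw [Real.dist_eq, abs_sub_comm]
        exact hg m φ
      · have := hto.const_mul ‖φ‖
        rwa [mul_zero] at this
    exact tendsto_nhds_unique h2 h1
  have hnorm : ‖G‖ ≤ 1 := by
    refine NormedSpace.norm_le_dual_bound ℝ _ zero_le_one (fun φ => ?_)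
    rw [← hval φ, one_mul]
    exact z.2.2.2 φ
  refine ⟨mkX G hnorm, ?_⟩
  refine Subtype.ext (funext (fun φ => ?_))
  rw [canon_apply, toX_mkX, hval]

/-- The ball is an `F_σδ` subset of the ball of the bidual. -/
theorem range_canon : range canon =
    ⋂ m : ℕ, ⋃ c : (N : ℕ) × ℕ × (Fin N → Fin m → ℕ), closure (canon '' Sset m c) := by
  refine Subset.antisymm ?_ ?_
  · rintro _ ⟨x, rfl⟩
    refine mem_iInter.2 (fun m => ?_)
    obtain ⟨c, hc⟩ := mem_Sset m x
    exact mem_iUnion.2 ⟨c, subset_closure ⟨x, hc, rfl⟩⟩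
  · intro z hz
    refine mem_range_canon_of_approx z (fun m => ?_)
    obtain ⟨c, hc⟩ := mem_iUnion.1 (mem_iInter.1 hz m)
    exact approx_of_closure z m c hc

end Pool.Agent.Lib.P50089e
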