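import Pool.Agent.Lib.P50089e.Space

/-!
# The combinatorial data
-/

set_option autoImplicit false
open Filter Topology Set

namespace Pool.Agent.Lib.P50089e

/-- Injective choice functions from large sets. -/
lemma inj_choice {ι β : Type} (S : ι → Set β)
    (h : ∀ i, Cardinal.mk ι ≤ Cardinal.mk (S i)) :
    ∃ f : ι → β, Function.Injective f ∧ ∀ i, f i ∈ S i := by
  classical
  obtain ⟨lo, wf, hr⟩ := Cardinal.exists_ord_eq_type_lt ι
  have hlt : ∀ x : ι, Cardinal.mk (Set.Iio x) < Cardinal.mk ι := fun x => Cardinal.mk_Iio_lt x hr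
  have step : ∀ (x : ι) (g : ∀ y, y < x → β), ∃ b ∈ S x, ∀ y (hy : y < x), g y hy ≠ b := by
    intro x g
    by_contra hcon
    push Not at hcon
    have hle : Cardinal.mk (S x) ≤ Cardinal.mk (Set.Iio x) := by
      choose t ht hgt using hcon
      refine Cardinal.mk_le_of_injective (f := fun b : S x => (⟨t b.1 b.2, ht b.1 b.2⟩ : Set.Iio x)) ?_
      intro b b' hbb
      have h1 : t b.1 b.2 = t b'.1 b'.2 := congrArg Subtype.val hbb
      have h2 := hgt b.1 b.2
      have h3 := hgt b'.1 b'.2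
      refine Subtype.ext ?_
      rw [← h2, ← h3]
      congr 1
    exact absurd ((h x).trans hle) (not_le.2 (hlt x))
  choose F hF1 hF2 using step
  let f : ι → β := wf.wf.fix F
  have hf : ∀ x, f x = F x (fun y _ => f y) := fun x => WellFounded.fix_eq wf.wf F x
  refine ⟨f, ?_, ?_⟩
  · have key : ∀ x y, y < x → f y ≠ f x := by
      intro x y hy
      rw [hf x]
      exact hF2 x (fun y _ => f y) y hy
    intro x y hxy
    rcases lt_trichotomy x y with h1 | h1 | h1
    · exact absurd hxy (key y x h1)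
    · exact h1
    · exact absurd hxy.symm (key x y h1)
  · intro x
    rw [hf x]
    exact hF1 _ _

/-- The combinatorial data. -/
structure Dat where
  H : ℕ → W
  l : ℕ → ℕ
  y : ℕ → ℕ → ℕ → (ℕ → ℕ)
  inj : Function.Injective H
  lpos : ∀ n, 1 ≤ l n
  y0 : ∀ n j i, y n j i 0 = n
  yl : ∀ n j i, y n j i (l n) = j
  agree : ∀ n j i j' i', ∀ m < l n, y n j i m = y n j' i' m

lemma mk_Dat_le : Cardinal.mk Dat ≤ Cardinal.continuum := by
  have h1 : Cardinal.mk Dat ≤
      Cardinal.mk ((ℕ → W) × (ℕ → ℕ) × (ℕ → ℕ → ℕ → (ℕ → ℕ))) := by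
    refine Cardinal.mk_le_of_injective (f := fun d : Dat => (d.H, d.l, d.y)) ?_
    intro d d' h
    simp only [Prod.mk.injEq] at h
    cases d
    cases d'
    simp only at h
    obtain ⟨h1, h2, h3⟩ := h
    subst h1 h2 h3
    rfl
  refine h1.trans ?_
  have h2 : Cardinal.mk ((ℕ → W) × (ℕ → ℕ) × (ℕ → ℕ → ℕ → (ℕ → ℕ))) = Cardinal.continuum := by
    simp [W]
  rw [h2]

/-- The ultrafilter. -/
noncomputable def u : Ultrafilter ℕ := Filter.hyperfilter ℕ

lemma u_le : (u : Filter ℕ) ≤ Filter.cofinite := Filter.hyperfilter_le_cofinite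

lemma u_atTop : (u : Filter ℕ) ≤ Filter.atTop := by
  rw [← Nat.cofinite_eq_atTop]; exact u_le

/-- A family of functions pairwise different on a large set. -/
noncomputable def code (z : ℕ → Bool) (j : ℕ) : ℕ := Encodable.encode (List.ofFn (fun i : Fin j => z i))

lemma code_inj (z : ℕ → Bool) : Function.Injective (code z) := by
  intro j j' h
  have h1 := Encodable.encode_injective h
  have h2 := congrArg List.length h1
  simpa using h2

lemma code_ne {z z' : ℕ → Bool} (h : z ≠ z') : ∀ᶠ j in (u : Filter ℕ), code z j ≠ code z' j := by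
  obtain ⟨i, hi⟩ := Function.ne_iff.1 h
  have : ∀ᶠ j in Filter.atTop, code z j ≠ code z' j := by
    filter_upwards [Filter.eventually_gt_atTop i] with j hj hcon
    have h1 := Encodable.encode_injective hcon
    have h2 := List.ofFn_injective h1
    exact hi (congrFun h2 ⟨i, hj⟩)
  exact this.filter_mono u_atTop

lemma exists_hh : ∃ h : Dat → ℕ → ℕ, (∀ d, Function.Injective (h d)) ∧
    ∀ d d' : Dat, d ≠ d' → ∀ᶠ j in (u : Filter ℕ), d.H (h d j) ≠ d'.H (h d' j) := by
  classical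
  let S : Dat → Set ((u : Filter ℕ).Germ W) := fun d =>
    {g | ∃ h : ℕ → ℕ, Function.Injective h ∧ g = ((fun j => d.H (h j) : ℕ → W) : (u : Filter ℕ).Germ W)}
  have hS : ∀ d, Cardinal.mk Dat ≤ Cardinal.mk (S d) := by
    intro d
    refine mk_Dat_le.trans ?_
    have hc : Cardinal.continuum = Cardinal.mk (ℕ → Bool) := by simp
    rw [hc]
    refine Cardinal.mk_le_of_injective
      (f := fun z => (⟨((fun j => d.H (code z j) : ℕ → W) : (u : Filter ℕ).Germ W),
        code z, code_inj z, rfl⟩ : S d)) ?_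
    intro z z' hzz
    by_contra hne
    have h1 : ((fun j => d.H (code z j) : ℕ → W) : (u : Filter ℕ).Germ W) =
        ((fun j => d.H (code z' j) : ℕ → W) : (u : Filter ℕ).Germ W) := congrArg Subtype.val hzz
    have h2 : (fun j => d.H (code z j)) =ᶠ[(u : Filter ℕ)] (fun j => d.H (code z' j)) :=
      Filter.Germ.coe_eq.1 h1
    have h3 := code_ne hne
    obtain ⟨j, hj1, hj2⟩ := (h2.and h3).exists
    exact hj2 (d.inj hj1)
  obtain ⟨f, hf1, hf2⟩ := inj_choice S hS
  choose h hh1 hh2 using hf2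
  refine ⟨h, hh1, ?_⟩
  intro d d' hdd
  have h1 : f d ≠ f d' := fun hcon => hdd (hf1 hcon)
  rw [hh2 d, hh2 d'] at h1
  have h2 : ¬ ((fun j => d.H (h d j)) =ᶠ[(u : Filter ℕ)] (fun j => d'.H (h d' j))) :=
    fun hcon => h1 (Filter.Germ.coe_eq.2 hcon)
  have h3 : ¬ ∀ᶠ j in (u : Filter ℕ), d.H (h d j) = d'.H (h d' j) := h2
  rw [← Ultrafilter.eventually_not] at h3
  exact h3

/-- The choice of the indices. -/
noncomputable def hh : Dat → ℕ → ℕ := exists_hh.choose

lemma hh_inj (d : Dat) : Function.Injective (hh d) := exists_hh.choose_spec.1 d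

lemma hh_ne {d d' : Dat} (h : d ≠ d') :
    ∀ᶠ j in (u : Filter ℕ), d.H (hh d j) ≠ d'.H (hh d' j) := exists_hh.choose_spec.2 d d' h

/-- The points. -/
noncomputable def pt (d : Dat) (n j : ℕ) : Γ := (d.y n j (hh d j), d.H (hh d j))

lemma pt_zero (d : Dat) (n j : ℕ) : (pt d n j).1 0 = n := d.y0 _ _ _

lemma pt_l (d : Dat) (n j : ℕ) : (pt d n j).1 (d.l n) = j := d.yl _ _ _

lemma pt_agree (d : Dat) (n j j' : ℕ) {m : ℕ} (hm : m < d.l n) :
    (pt d n j).1 m = (pt d n j').1 m := d.agree _ _ _ _ _ m hm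

lemma pt_inj (d : Dat) (n : ℕ) : Function.Injective (pt d n) := by
  intro j j' h
  have h1 := pt_l d n j
  rw [h, pt_l] at h1
  exact h1.symm

/-- If two points of the same row lie in an admissible set, the level is the level of the row. -/
lemma level_eq {A : Set Γ} {l : ℕ → ℕ}
    (h : ∀ a ∈ A, ∀ b ∈ A, a.1 0 = b.1 0 → a ≠ b →
      (∀ m < l (a.1 0), a.1 m = b.1 m) ∧ a.1 (l (a.1 0)) ≠ b.1 (l (a.1 0)))
    (d : Dat) (n : ℕ) {j j' : ℕ} (hj : j ≠ j') (h1 : pt d n j ∈ A) (h2 : pt d n j' ∈ A) :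
    l n = d.l n := by
  have h3 := h _ h1 _ h2 (by rw [pt_zero, pt_zero]) (fun hcon => hj (pt_inj d n hcon))
  rw [pt_zero] at h3
  rcases lt_trichotomy (l n) (d.l n) with hlt | heq | hgt
  · exact absurd (pt_agree d n j j' hlt) h3.2
  · exact heq
  · have h4 := h3.1 _ hgt
    rw [pt_l, pt_l] at h4
    exact absurd h4 hj

/-- The set of all the points. -/
def AA (d : Dat) : Set Γ := {a | ∃ n j, a = pt d n j}

lemma AA_spec (d : Dat) : (∀ a ∈ AA d, a.2 = d.H (hh d (a.1 (d.l (a.1 0))))) ∧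
    ∀ a ∈ AA d, ∀ b ∈ AA d, a.1 0 = b.1 0 → a ≠ b →
      (∀ m < d.l (a.1 0), a.1 m = b.1 m) ∧ a.1 (d.l (a.1 0)) ≠ b.1 (d.l (a.1 0)) := by
  constructor
  · rintro _ ⟨n, j, rfl⟩
    rw [pt_zero, pt_l]
    rfl
  · rintro _ ⟨n, j, rfl⟩ _ ⟨n', j', rfl⟩ h0 hne
    rw [pt_zero, pt_zero] at h0
    subst h0
    rw [pt_zero]
    refine ⟨fun m hm => pt_agree d n j j' hm, ?_⟩
    rw [pt_l, pt_l]
    intro hcon
    exact hne (by rw [hcon])

lemma adm_AA (d : Dat) : Adm (AA d) :=
  ⟨d.l, fun j => d.H (hh d j), (AA_spec d).1, (AA_spec d).2⟩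

lemma two_of_mem {s : Set ℕ} (hs : s ∈ u) : ∃ j ∈ s, ∃ j' ∈ s, j ≠ j' := by
  have hinf : s.Infinite := by
    intro hfin
    have h1 : sᶜ ∈ u := u_le hfin.compl_mem_cofinite
    have h2 := u.inter_mem hs h1
    rw [inter_compl_self] at h2
    exact u.empty_notMem h2
  obtain ⟨j, hj⟩ := hinf.nonempty
  obtain ⟨j', hj', hne⟩ := hinf.exists_notMem_finset {j}
  exact ⟨j, hj, j', hj', fun h => hne (by simp [h])⟩

lemma notMem_AA {d d' : Dat} (h : d ≠ d') (n : ℕ) :
    ∀ᶠ j in (u : Filter ℕ), pt d n j ∉ AA d' := by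
  rw [Ultrafilter.eventually_not]
  intro hcon
  have h1 : {j | pt d n j ∈ AA d' ∧ d.H (hh d j) ≠ d'.H (hh d' j)} ∈ u := hcon.and (hh_ne h)
  obtain ⟨j, ⟨hj, hjl⟩, j', ⟨hj', hjl'⟩, hne⟩ := two_of_mem h1
  have hlev := level_eq (AA_spec d').2 d n hne hj hj'
  have h2 := (AA_spec d').1 _ hj
  rw [pt_zero, hlev, pt_l] at h2
  exact hjl h2

/-- Pigeonhole for uncountable sets. -/
lemma pigeon {C : Type} [Countable C] {P : W → C → Prop} (hP : ∀ γ, ∃ c, P γ c) (U : Set W)
    (hU : ¬ U.Countable) : ∃ c, ¬ {γ ∈ U | P γ c}.Countable := by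
  by_contra hcon
  push Not at hcon
  apply hU
  have : U ⊆ ⋃ c, {γ ∈ U | P γ c} := by
    intro γ hγ
    obtain ⟨c, hc⟩ := hP γ
    exact mem_iUnion.2 ⟨c, hγ, hc⟩
  exact (countable_iUnion hcon).mono this

/-- Density in a cylinder. -/
def DenseCyl (T : Set (ℕ → ℕ)) (L : List ℕ) : Prop :=
  ∀ y : ℕ → ℕ, (∀ i < L.length, y i = L.getD i 0) → ∀ N, ∃ y' ∈ T, ∀ i < N, y' i = y i

lemma exists_denseCyl (n : ℕ) (T : ℕ → Set (ℕ → ℕ)) (hT : ⋃ k, T k = univ) :
    ∃ (k : ℕ) (L : List ℕ), 1 ≤ L.length ∧ L.getD 0 0 = n ∧ DenseCyl (T k) L := by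
  have h1 : Dense (⋃ k, interior (closure (T k))) := by
    refine dense_iUnion_interior_of_closed (fun k => isClosed_closure) ?_
    rw [← univ_subset_iff, ← hT]
    exact iUnion_mono (fun k => subset_closure)
  have hopen : IsOpen {y : ℕ → ℕ | y 0 = n} := by
    have hc : Continuous (fun y : ℕ → ℕ => y 0) := continuous_apply 0
    exact (isOpen_discrete ({n} : Set ℕ)).preimage hc
  obtain ⟨y, hy, hyn⟩ := h1.inter_open_nonempty _ hopen ⟨fun _ => n, rfl⟩
  obtain ⟨k, hk⟩ := mem_iUnion.1 hyn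
  -- a cylinder inside the interior
  have hnhds : interior (closure (T k)) ∈ 𝓝 y := isOpen_interior.mem_nhds hk
  rw [nhds_pi, Filter.mem_pi] at hnhds
  obtain ⟨I, hI, t, ht, hsub⟩ := hnhds
  obtain ⟨M, hM⟩ := hI.bddAbove
  refine ⟨k, List.ofFn (fun i : Fin (M + 1) => y i), by simp, ?_, ?_⟩
  · simpa [List.getD] using hy
  · intro z hz N
    have hz' : ∀ i ≤ M, z i = y i := by
      intro i hi
      have hi' : i < M + 1 := by omega
      have := hz i (by simpa using hi')
      rw [this, List.getD_eq_getElem _ _ (by simpa using hi'), List.getElem_ofFn]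
    have hzmem : z ∈ interior (closure (T k)) := by
      apply hsub
      intro i hi
      rw [hz' i (hM hi)]
      exact mem_of_mem_nhds (ht i)
    have hzc : z ∈ closure (T k) := interior_subset hzmem
    have hVopen : IsOpen {w : ℕ → ℕ | ∀ i < N, w i = z i} := by
      have : {w : ℕ → ℕ | ∀ i < N, w i = z i} = ⋂ i ∈ Finset.range N, {w | w i = z i} := by
        ext w; simp
      rw [this]
      refine isOpen_biInter_finset (fun i _ => ?_)
      have hc : Continuous (fun y : ℕ → ℕ => y i) := continuous_apply i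
      exact (isOpen_discrete ({z i} : Set ℕ)).preimage hc
    obtain ⟨y', hy', hyT⟩ := mem_closure_iff.1 hzc _ hVopen (fun i _ => rfl)
    exact ⟨y', hyT, hy'⟩

/-- The capturing property. -/
lemma capture (E : ℕ → ℕ → Set Γ) (hE : ∀ n, ⋃ k, E n k = univ) :
    ∃ d : Dat, ∀ n, ∃ k, ∀ᶠ j in (u : Filter ℕ), pt d n j ∈ E n k := by
  classical
  let P : ℕ → W → ℕ × List ℕ → Prop := fun n γ c =>
    1 ≤ c.2.length ∧ c.2.getD 0 0 = n ∧ DenseCyl {y | (y, γ) ∈ E n c.1} c.2
  have hP : ∀ n γ, ∃ c, P n γ c := by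
    intro n γ
    obtain ⟨k, L, h1, h2, h3⟩ := exists_denseCyl n (fun k => {y | (y, γ) ∈ E n k}) (by
      rw [← univ_subset_iff]
      intro y _
      have : (y, γ) ∈ ⋃ k, E n k := by rw [hE n]; trivial
      obtain ⟨k, hk⟩ := mem_iUnion.1 this
      exact mem_iUnion.2 ⟨k, hk⟩)
    exact ⟨(k, L), h1, h2, h3⟩
  have step : ∀ (n : ℕ) (U : {U : Set W // ¬ U.Countable}),
      ∃ c, ¬ {γ ∈ U.1 | P n γ c}.Countable := fun n U => pigeon (hP n) U.1 U.2
  choose c hc using step
  have hW : ¬ (univ : Set W).Countable := by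
    rw [Set.countable_univ_iff, ← Cardinal.mk_le_aleph0_iff, not_le]
    have : Cardinal.mk W = Cardinal.continuum := by simp [W]
    rw [this]
    exact Cardinal.aleph0_lt_continuum
  let U : ℕ → {U : Set W // ¬ U.Countable} := fun n =>
    Nat.rec ⟨univ, hW⟩ (fun n U => ⟨{γ ∈ U.1 | P n γ (c n U)}, hc n U⟩) n
  have hUsucc : ∀ n, (U (n + 1)).1 = {γ ∈ (U n).1 | P n γ (c n (U n))} := fun n => rfl
  have hUanti : ∀ n m, n ≤ m → (U m).1 ⊆ (U n).1 := by
    intro n m hnm
    induction hnm with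
    | refl => exact subset_rfl
    | step _ ih =>
      rename_i m
      refine Subset.trans ?_ ih
      rw [Nat.succ_eq_add_one, hUsucc]
      exact fun γ hγ => hγ.1
  -- an injective sequence of labels
  obtain ⟨f, hf1, hf2⟩ := exists_seq_of_forall_finset_exists
    (α := ℕ × W) (fun p => p.2 ∈ (U (p.1 + 1)).1) (fun p q => p.1 < q.1 ∧ p.2 ≠ q.2) (by
      intro s _
      obtain ⟨N, hN⟩ := (s.image Prod.fst).bddAbove
      have hinf : ((U (N + 1 + 1)).1).Infinite := fun hfin => (U (N + 1 + 1)).2 hfin.countable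
      obtain ⟨γ, hγ, hγs⟩ := hinf.exists_notMem_finset (s.image Prod.snd)
      refine ⟨(N + 1, γ), hγ, fun x hx => ⟨?_, ?_⟩⟩
      · have := hN (Finset.mem_coe.2 (Finset.mem_image_of_mem Prod.fst hx))
        change x.1 < N + 1
        omega
      · intro hcon
        exact hγs (Finset.mem_image.2 ⟨x, hx, hcon⟩))
  have hfmono : StrictMono (fun n => (f n).1) := strictMono_nat_of_lt_succ
    (fun n => (hf2 n (n + 1) (Nat.lt_succ_self n)).1)
  have hfle : ∀ n, n ≤ (f n).1 := fun n => hfmono.id_le n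
  let H : ℕ → W := fun i => (f i).2
  have hHinj : Function.Injective H := by
    intro i i' h
    rcases lt_trichotomy i i' with h1 | h1 | h1
    · exact absurd h (hf2 i i' h1).2
    · exact h1
    · exact absurd h.symm (hf2 i' i h1).2
  have hHmem : ∀ n i, n ≤ i → P n (H i) (c n (U n)) := by
    intro n i hni
    have h1 : H i ∈ (U ((f i).1 + 1)).1 := hf1 i
    have h2 : H i ∈ (U (n + 1)).1 := hUanti (n + 1) ((f i).1 + 1) (by have := hfle i; omega) h1
    rw [hUsucc] at h2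
    exact h2.2
  have hPn : ∀ n, 1 ≤ (c n (U n)).2.length ∧ (c n (U n)).2.getD 0 0 = n := by
    intro n
    have := hHmem n n le_rfl
    exact ⟨this.1, this.2.1⟩
  have hy : ∀ n j i, ∃ y : ℕ → ℕ, (∀ m < (c n (U n)).2.length, y m = (c n (U n)).2.getD m 0) ∧
      y (c n (U n)).2.length = j ∧ (n ≤ i → (y, H i) ∈ E n (c n (U n)).1) := by
    intro n j i
    let y₀ : ℕ → ℕ := fun m => if m < (c n (U n)).2.length then (c n (U n)).2.getD m 0 else j
    have hy₀ : ∀ m < (c n (U n)).2.length, y₀ m = (c n (U n)).2.getD m 0 := by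
      intro m hm
      simp only [y₀, if_pos hm]
    have hy₁ : y₀ (c n (U n)).2.length = j := by
      simp only [y₀, lt_irrefl, if_false]
    by_cases hni : n ≤ i
    · obtain ⟨y', hy', hag⟩ := (hHmem n i hni).2.2 y₀ hy₀ ((c n (U n)).2.length + 1)
      refine ⟨y', ?_, ?_, fun _ => hy'⟩
      · intro m hm
        rw [hag m (by omega), hy₀ m hm]
      · rw [hag _ (by omega), hy₁]
    · exact ⟨y₀, hy₀, hy₁, fun h => absurd h hni⟩
  choose y hy1 hy2 hy3 using hy
  let d : Dat :=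
    { H := H
      l := fun n => (c n (U n)).2.length
      y := y
      inj := hHinj
      lpos := fun n => (hPn n).1
      y0 := fun n j i => by
        rw [hy1 n j i 0 (hPn n).1]
        exact (hPn n).2
      yl := hy2
      agree := fun n j i j' i' m hm => by rw [hy1 n j i m hm, hy1 n j' i' m hm] }
  refine ⟨d, fun n => ⟨(c n (U n)).1, ?_⟩⟩
  have htend : Tendsto (hh d) (u : Filter ℕ) atTop :=
    ((hh_inj d).nat_tendsto_atTop).mono_left u_atTop
  filter_upwards [htend.eventually_ge_atTop n] with j hj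
  exact hy3 n j (hh d j) hj

end Pool.Agent.Lib.P50089e
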