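import Pool.Agent.Lib.P50089e.Bidual

/-!
# A compactification of the ball in which it is not `F_σδ`
-/

set_option autoImplicit false
open Filter Topology Set

namespace Pool.Agent.Lib.P50089e

/-- The unit vectors as elements of the ball. -/
noncomputable def eX (x : Γ) : BX := mkX (e x) (norm_e_le x)

lemma toX_eX (x : Γ) : toX (eX x) = e x := rfl

lemma eventually_ne (d : Dat) (n : ℕ) (x : Γ) : ∀ᶠ j in (u : Filter ℕ), pt d n j ≠ x := by
  rw [Ultrafilter.eventually_not]
  intro hcon
  obtain ⟨j, hj, j', hj', hne⟩ := two_of_mem hcon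
  exact hne (pt_inj d n (hj.trans hj'.symm))

/-- Admissible test functions. -/
def Good (F : C(BX, unitInterval)) : Prop :=
  ∀ d : Dat, ∃ r, ∀ n, Tendsto (fun j => F (eX (pt d n j))) u (𝓝 r)

/-- Truncation to the unit interval. -/
noncomputable def mkF (f : BX → ℝ) (hf : Continuous f) : C(BX, unitInterval) :=
  ⟨fun w => Set.projIcc 0 1 zero_le_one (f w), continuous_projIcc.comp hf⟩

lemma mkF_one {f : BX → ℝ} {hf : Continuous f} {w : BX} (h : 1 ≤ f w) : mkF f hf w = 1 :=
  Set.projIcc_of_right_le zero_le_one h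

lemma mkF_zero {f : BX → ℝ} {hf : Continuous f} {w : BX} (h : f w ≤ 0) : mkF f hf w = 0 :=
  Set.projIcc_of_le_left zero_le_one h

/-- Basic neighbourhoods. -/
lemma basic_nhds (z : BX) (U : Set BX) (hU : U ∈ 𝓝 z) :
    ∃ (I : Finset (StrongDual ℝ XX)) (ε : ℝ), 0 < ε ∧
      ∀ w, w ∉ U → ε ≤ ∑ φ ∈ I, |φ (toX w) - φ (toX z)| := by
  classical
  rw [inducing_BX.nhds_eq_comap, Filter.mem_comap] at hU
  obtain ⟨V, hV, hVU⟩ := hU
  rw [nhds_pi, Filter.mem_pi] at hV
  obtain ⟨I, hI, t, ht, hsub⟩ := hV
  have hε : ∀ φ, ∃ ε > 0, Metric.ball (φ (toX z)) ε ⊆ t φ := fun φ => Metric.mem_nhds_iff.1 (ht φ)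
  choose ε hε hball using hε
  -- a common radius
  obtain ⟨δ, hδ, hδI⟩ : ∃ δ > 0, ∀ φ ∈ hI.toFinset, δ ≤ ε φ := by
    by_cases hne : hI.toFinset.Nonempty
    · refine ⟨hI.toFinset.inf' hne ε, ?_, fun φ hφ => Finset.inf'_le _ hφ⟩
      exact (Finset.lt_inf'_iff hne).2 (fun φ _ => hε φ)
    · rw [Finset.not_nonempty_iff_eq_empty] at hne
      exact ⟨1, one_pos, fun φ hφ => by rw [hne] at hφ; simp at hφ⟩
  refine ⟨hI.toFinset, δ, hδ, fun w hw => ?_⟩
  by_contra hlt
  push Not at hlt
  apply hw
  apply hVU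
  apply hsub
  intro φ hφ
  apply hball φ
  rw [Metric.mem_ball, Real.dist_eq]
  have h1 : |φ (toX w) - φ (toX z)| ≤ ∑ φ ∈ hI.toFinset, |φ (toX w) - φ (toX z)| :=
    Finset.single_le_sum (f := fun φ : StrongDual ℝ XX => |φ (toX w) - φ (toX z)|)
      (fun _ _ => abs_nonneg _) (hI.mem_toFinset.2 hφ)
  exact (h1.trans_lt hlt).trans_le (hδI φ (hI.mem_toFinset.2 hφ))

/-- The test functions separate points and closed sets. -/
lemma exists_good (z : BX) (U : Set BX) (hU : U ∈ 𝓝 z) :
    ∃ F : C(BX, unitInterval), Good F ∧ F z = 0 ∧ ∀ w, w ∉ U → F w = 1 := by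
  classical
  obtain ⟨I, ε, hε, hI⟩ := basic_nhds z U hU
  have hScont : Continuous (fun w : BX => ∑ φ ∈ I, |φ (toX w) - φ (toX z)|) :=
    continuous_finsetSum _ (fun φ _ => ((continuous_BX φ).sub continuous_const).abs)
  by_cases hz : toX z = 0
  · -- the origin
    let DD : Set Dat := ⋃ φ ∈ I, {d : Dat | ∃ n, ∀ᶠ j in (u : Filter ℕ),
      ε / (2 * (I.card + 1)) ≤ |φ (e (pt d n j))|}
    have hDD : DD.Finite := I.finite_toSet.biUnion (fun φ _ => finite_large φ _ (by positivity))
    have hcont : Continuous (fun w : BX => max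
        (2 * ((∑ φ ∈ I, |φ (toX w) - φ (toX z)|) / ε) - 1)
        (∑ d ∈ hDD.toFinset, |dl (indA (AA d) (adm_AA d)) (toX w)|)) := by
      refine Continuous.max ?_ ?_
      · exact ((hScont.div_const ε).const_mul 2).sub continuous_const
      · exact continuous_finsetSum _ (fun d _ => (continuous_BX _).abs)
    refine ⟨mkF _ hcont, ?_, ?_, ?_⟩
    · intro d
      by_cases hd : d ∈ DD
      · refine ⟨1, fun n => ?_⟩
        have : ∀ j, mkF _ hcont (eX (pt d n j)) = 1 := by
          intro j
          apply mkF_one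
          refine le_trans ?_ (le_max_right _ _)
          have h1 : |dl (indA (AA d) (adm_AA d)) (toX (eX (pt d n j)))| = 1 := by
            rw [toX_eX, dl_e]
            have : (indA (AA d) (adm_AA d)).fn (pt d n j) = 1 := by
              change (AA d).indicator 1 (pt d n j) = (1 : ℝ)
              have hm : pt d n j ∈ AA d := ⟨n, j, rfl⟩
              rw [indicator_of_mem hm]
              rfl
            rw [this, abs_one]
          rw [← h1]
          exact Finset.single_le_sum
            (f := fun d => |dl (indA (AA d) (adm_AA d)) (toX (eX (pt _ n j)))|)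
            (fun _ _ => abs_nonneg _) (hDD.mem_toFinset.2 hd)
        simp only [this]
        exact tendsto_const_nhds
      · refine ⟨0, fun n => ?_⟩
        have h1 : ∀ᶠ j in (u : Filter ℕ), ∀ φ ∈ I,
            |φ (e (pt d n j))| < ε / (2 * (I.card + 1)) := by
          refine (Filter.eventually_all_finset _).2 (fun φ hφ => ?_)
          have h2 : ¬ ∀ᶠ j in (u : Filter ℕ), ε / (2 * (I.card + 1)) ≤ |φ (e (pt d n j))| :=
            fun hcon => hd (mem_iUnion₂.2 ⟨φ, hφ, n, hcon⟩)
          rw [← Ultrafilter.eventually_not] at h2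
          filter_upwards [h2] with j hj
          exact not_le.1 hj
        have h3 : ∀ᶠ j in (u : Filter ℕ), ∀ d' ∈ hDD.toFinset, pt d n j ∉ AA d' := by
          refine (Filter.eventually_all_finset _).2 (fun d' hd' => ?_)
          refine notMem_AA (fun hcon => hd ?_) n
          rw [hcon]
          exact hDD.mem_toFinset.1 hd'
        refine tendsto_const_nhds.congr' ?_
        filter_upwards [h1, h3] with j hj1 hj3
        symm
        apply mkF_zero
        refine max_le ?_ ?_
        · have h4 : ∑ φ ∈ I, |φ (toX (eX (pt d n j))) - φ (toX z)| ≤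
              ∑ φ ∈ I, ε / (2 * (I.card + 1)) := by
            refine Finset.sum_le_sum (fun φ hφ => ?_)
            rw [hz, map_zero, sub_zero, toX_eX]
            exact (hj1 φ hφ).le
          rw [Finset.sum_const, nsmul_eq_mul] at h4
          have h5 : (I.card : ℝ) * (ε / (2 * (I.card + 1))) ≤ ε / 2 := by
            rw [← mul_div_assoc, div_le_div_iff₀ (by positivity) (by positivity)]
            nlinarith
          have h6 : (∑ φ ∈ I, |φ (toX (eX (pt d n j))) - φ (toX z)|) / ε ≤ 1 / 2 := by
            rw [div_le_iff₀ hε]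
            linarith
          linarith
        · refine le_of_eq (Finset.sum_eq_zero (fun d' hd' => ?_))
          rw [toX_eX, dl_e]
          have : (indA (AA d') (adm_AA d')).fn (pt d n j) = 0 := by
            change (AA d').indicator 1 (pt d n j) = (0 : ℝ)
            exact indicator_of_notMem (hj3 d' hd') _
          rw [this, abs_zero]
    · apply mkF_zero
      refine max_le ?_ ?_
      · simp
      · rw [hz]; simp
    · intro w hw
      apply mkF_one
      refine le_trans ?_ (le_max_left _ _)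
      have h1 : 1 ≤ (∑ φ ∈ I, |φ (toX w) - φ (toX z)|) / ε := by
        rw [le_div_iff₀ hε, one_mul]
        exact hI w hw
      linarith
  · -- the other points
    obtain ⟨x, hx⟩ : ∃ x, co x (toX z) ≠ 0 := by
      by_contra hcon
      push Not at hcon
      exact hz (eq_zero_of_co _ hcon)
    have hcont : Continuous (fun w : BX => max
        ((∑ φ ∈ I, |φ (toX w) - φ (toX z)|) / ε)
        (|co x (toX w) - co x (toX z)| / |co x (toX z)|)) := by
      refine Continuous.max (hScont.div_const ε) ?_
      exact ((continuous_BX (co x)).sub continuous_const).abs.div_const _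
    refine ⟨mkF _ hcont, ?_, ?_, ?_⟩
    · intro d
      refine ⟨1, fun n => ?_⟩
      refine tendsto_const_nhds.congr' ?_
      filter_upwards [eventually_ne d n x] with j hj
      symm
      apply mkF_one
      refine le_trans ?_ (le_max_right _ _)
      rw [toX_eX, co_e, if_neg hj, zero_sub, abs_neg, div_self (abs_ne_zero.2 hx)]
    · apply mkF_zero
      refine max_le ?_ ?_ <;> simp
    · intro w hw
      apply mkF_one
      refine le_trans ?_ (le_max_left _ _)
      rw [le_div_iff₀ hε, one_mul]
      exact hI w hw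

/-- The product of intervals. -/
abbrev Q : Type := {F : C(BX, unitInterval) // Good F} → unitInterval

/-- The embedding in the product. -/
noncomputable def io (z : BX) : Q := fun F => F.1 z

lemma continuous_io : Continuous io := continuous_pi (fun F => F.1.continuous)

lemma inducing_io : IsInducing io := by
  rw [isInducing_iff_nhds]
  intro z
  refine le_antisymm ?_ ?_
  · exact Filter.map_le_iff_le_comap.1 (continuous_io.tendsto z)
  · intro U hU
    obtain ⟨F, hF, hFz, hFU⟩ := exists_good z U hU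
    rw [Filter.mem_comap]
    refine ⟨{q | q ⟨F, hF⟩ < 1}, ?_, ?_⟩
    · have hc : Continuous (fun q : Q => q ⟨F, hF⟩) := continuous_apply _
      refine (isOpen_lt hc continuous_const).mem_nhds ?_
      change F z < 1
      rw [hFz]
      exact zero_lt_one
    · intro w hw
      by_contra hwU
      have h1 : F w < 1 := hw
      rw [hFU w hwU] at h1
      exact lt_irrefl _ h1

/-- The compactification. -/
abbrev KK : Type := {q : Q // q ∈ closure (range io)}

instance : CompactSpace KK := isCompact_iff_compactSpace.1 isClosed_closure.isCompact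

/-- The embedding in the compactification. -/
noncomputable def emb (z : BX) : KK := ⟨io z, subset_closure ⟨z, rfl⟩⟩

lemma inducing_emb : IsInducing emb := inducing_io.codRestrict _

instance : T2Space (WeakSpace ℝ XX) := by
  have h : IsEmbedding (fun (x : WeakSpace ℝ XX) (φ : StrongDual ℝ XX) =>
      φ ((toWeakSpace ℝ XX).symm x)) := by
    refine ⟨⟨rfl⟩, fun x y hxy => ?_⟩
    have h1 : ∀ φ : StrongDual ℝ XX,
        φ ((toWeakSpace ℝ XX).symm x) = φ ((toWeakSpace ℝ XX).symm y) := fun φ => congrFun hxy φ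
    have h2 := (SeparatingDual.eq_iff_forall_dual_eq (R := ℝ)).2 h1
    exact (toWeakSpace ℝ XX).symm.injective h2
  exact h.t2Space

lemma embedding_emb : IsEmbedding emb := inducing_emb.isEmbedding

lemma denseRange_emb : DenseRange emb := by
  intro q
  rw [closure_subtype]
  have : (Subtype.val '' range emb : Set Q) = range io := by
    ext y
    constructor
    · rintro ⟨_, ⟨z, rfl⟩, rfl⟩
      exact ⟨z, rfl⟩
    · rintro ⟨z, rfl⟩
      exact ⟨emb z, ⟨z, rfl⟩, rfl⟩
  rw [this]
  exact q.2

/-- The ball is not `F_σδ` in the compactification. -/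
theorem not_Fsd (C : ℕ → ℕ → Set KK) (hC : ∀ n k, IsClosed (C n k)) :
    range emb ≠ ⋂ n, ⋃ k, C n k := by
  classical
  intro heq
  let E : ℕ → ℕ → Set Γ := fun n k => {x | emb (eX x) ∈ C n k}
  have hE : ∀ n, ⋃ k, E n k = univ := by
    intro n
    rw [← univ_subset_iff]
    intro x _
    have h1 : emb (eX x) ∈ ⋂ n, ⋃ k, C n k := by rw [← heq]; exact ⟨_, rfl⟩
    obtain ⟨k, hk⟩ := mem_iUnion.1 (mem_iInter.1 h1 n)
    exact mem_iUnion.2 ⟨k, hk⟩
  obtain ⟨d, hd⟩ := capture E hE
  have hlim : ∀ F : {F : C(BX, unitInterval) // Good F}, ∃ r, ∀ n,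
      Tendsto (fun j => F.1 (eX (pt d n j))) u (𝓝 r) := fun F => F.2 d
  choose q hq using hlim
  have hio : ∀ n, Tendsto (fun j => io (eX (pt d n j))) u (𝓝 q) := by
    intro n
    rw [tendsto_pi_nhds]
    exact fun F => hq F n
  have hqcl : q ∈ closure (range io) :=
    mem_closure_of_tendsto (hio 0) (Filter.Eventually.of_forall (fun j => ⟨_, rfl⟩))
  have hemb : ∀ n, Tendsto (fun j => emb (eX (pt d n j))) u (𝓝 (⟨q, hqcl⟩ : KK)) := by
    intro n
    rw [tendsto_subtype_rng]
    exact hio n
  have hmem : (⟨q, hqcl⟩ : KK) ∈ ⋂ n, ⋃ k, C n k := by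
    refine mem_iInter.2 (fun n => ?_)
    obtain ⟨k, hk⟩ := hd n
    exact mem_iUnion.2 ⟨k, (hC n k).mem_of_tendsto (hemb n) hk⟩
  rw [← heq] at hmem
  obtain ⟨z, hz⟩ := hmem
  have hto : Tendsto (fun j => eX (pt d 0 j)) u (𝓝 z) := by
    rw [inducing_emb.tendsto_nhds_iff, hz]
    exact hemb 0
  have hφ : ∀ φ : StrongDual ℝ XX, Tendsto (fun j => φ (e (pt d 0 j))) u (𝓝 (φ (toX z))) :=
    fun φ => ((continuous_BX φ).tendsto z).comp hto
  have hz0 : toX z = 0 := by
    refine eq_zero_of_co _ (fun x => ?_)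
    refine tendsto_nhds_unique (hφ (co x)) (tendsto_const_nhds.congr' ?_)
    filter_upwards [eventually_ne d 0 x] with j hj
    rw [co_e, if_neg hj]
  have h1 := hφ (dl (indA (AA d) (adm_AA d)))
  rw [hz0, map_zero] at h1
  have h2 : Tendsto (fun j => dl (indA (AA d) (adm_AA d)) (e (pt d 0 j))) u (𝓝 1) := by
    refine tendsto_const_nhds.congr (fun j => ?_)
    rw [dl_e]
    change (1 : ℝ) = (AA d).indicator 1 (pt d 0 j)
    have hm : pt d 0 j ∈ AA d := ⟨0, j, rfl⟩
    rw [indicator_of_mem hm]
    rfl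
  exact zero_ne_one (tendsto_nhds_unique h1 h2)

end Pool.Agent.Lib.P50089e
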