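import Pool.Agent.Lib.P50089e.Comb

/-!
# Functionals and ultrafilters
-/

set_option autoImplicit false
open Filter Topology Set

namespace Pool.Agent.Lib.P50089e

/-- Nonprincipal ultrafilters. -/
def NP {α : Type} (p : Ultrafilter α) : Prop := ∀ x, {x} ∉ p

lemma NP.infinite {α : Type} {p : Ultrafilter α} (hp : NP p) {s : Set α} (hs : s ∈ p) :
    s.Infinite := by
  intro hfin
  have h1 : (⋃ x ∈ s, {x}) ∈ p := by
    have : (⋃ x ∈ s, {x}) = s := by ext; simp
    rw [this]; exact hs
  obtain ⟨x, _, hx⟩ := (Ultrafilter.finite_biUnion_mem_iff hfin).1 h1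
  exact hp x hx

lemma three {T : Finset ℕ} (h : ∀ a ∈ T, ∀ b ∈ T, ∀ c ∈ T, a < b → b < c → False) :
    T.card ≤ 2 := by
  by_contra hcon
  push Not at hcon
  obtain ⟨a, ha, b, hb, c, hc, hab, hac, hbc⟩ := Finset.two_lt_card.1 hcon
  rcases lt_or_gt_of_ne hab with h1 | h1 <;> rcases lt_or_gt_of_ne hac with h2 | h2 <;>
    rcases lt_or_gt_of_ne hbc with h3 | h3 <;>
    first
    | exact h a ha b hb c hc h1 h3
    | exact h a ha c hc b hb h2 h3
    | exact h b hb a ha c hc h1 h2
    | exact h b hb c hc a ha h3 h2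
    | exact h c hc a ha b hb h2 h1
    | exact h c hc b hb a ha h3 h1

/-- If all the coordinates are constant along a nonprincipal ultrafilter then the unit vectors
tend weakly to zero. -/
lemma not_large_of_const (p : Ultrafilter Γ) (hp : NP p) (σ : ℕ → ℕ)
    (hσ : ∀ m, {x : Γ | x.1 m = σ m} ∈ p) (φ : XX →L[ℝ] ℝ) (ε : ℝ) (hε : 0 < ε) :
    {x | ε ≤ |φ (e x)|} ∉ p := by
  classical
  intro hD
  obtain ⟨n, hn⟩ := exists_nat_gt (2 * ‖φ‖ / ε)
  rw [div_lt_iff₀ hε] at hn
  rcases p.em (fun x => x.1 = σ) with hA | hB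
  · have h1 : {x : Γ | ε ≤ |φ (e x)|} ∩ {x | x.1 = σ} ∈ p := p.inter_mem hD hA
    obtain ⟨S, hS, hSn⟩ := (hp.infinite h1).exists_subset_card_eq n
    have h2 := key S id φ ε (fun x hx => (hS (Finset.mem_coe.2 hx)).1) 1 (by
      intro A hA' T hT hTA
      rw [Finset.card_le_one]
      intro a ha b hb
      by_contra hne
      obtain ⟨l, β, _, hA2⟩ := hA'
      have ha' : a.1 = σ := (hS (Finset.mem_coe.2 (hT ha))).2
      have hb' : b.1 = σ := (hS (Finset.mem_coe.2 (hT hb))).2
      have := (hA2 a (hTA a ha) b (hTA b hb) (by rw [ha', hb']) hne).2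
      rw [ha', hb'] at this
      exact this rfl)
    rw [hSn] at h2
    have := norm_nonneg φ
    push_cast at h2
    linarith
  · have hDm : ∀ m, ∃ x : Γ, ε ≤ |φ (e x)| ∧ x.1 ≠ σ ∧ ∀ i < m, x.1 i = σ i := by
      intro m
      have h1 : ∀ᶠ x in (p : Filter Γ), ∀ i < m, x.1 i = σ i := by
        have : ∀ᶠ x in (p : Filter Γ), ∀ i ∈ Finset.range m, x.1 i = σ i :=
          (Filter.eventually_all_finset _).2 (fun i _ => hσ i)
        filter_upwards [this] with x hx i hi
        exact hx i (Finset.mem_range.2 hi)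
      have h2 : ∀ᶠ x in (p : Filter Γ), ε ≤ |φ (e x)| := hD
      obtain ⟨x, hx⟩ := (h2.and (hB.and h1)).exists
      exact ⟨x, hx⟩
    obtain ⟨f, hf1, hf2⟩ := exists_seq_of_forall_finset_exists
      (α := Γ) (fun x => ε ≤ |φ (e x)| ∧ x.1 ≠ σ ∧ x.1 0 = σ 0)
      (fun x y => ∃ m, x.1 m ≠ σ m ∧ ∀ i ≤ m, y.1 i = σ i) (by
        intro s hs
        have hex : ∀ x : Γ, ∃ m, x ∈ s → x.1 m ≠ σ m := by
          intro x
          by_cases hx : x ∈ s
          · obtain ⟨m, hm⟩ := Function.ne_iff.1 (hs x hx).2.1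
            exact ⟨m, fun _ => hm⟩
          · exact ⟨0, fun h => absurd h hx⟩
        choose mm hmm using hex
        obtain ⟨y, hy1, hy2, hy3⟩ := hDm (s.sup mm + 1)
        refine ⟨y, ⟨hy1, hy2, hy3 0 (by omega)⟩, fun x hx => ⟨mm x, hmm x hx, fun i hi => ?_⟩⟩
        have := Finset.le_sup (f := mm) hx
        exact hy3 i (by omega))
    have h2 := key (Finset.range n) f φ ε (fun i _ => (hf1 i).1) 2 (by
      intro A hA' T hT hTA
      obtain ⟨l, β, _, hA2⟩ := hA'
      refine three (fun a ha b hb c hc hab hbc => ?_)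
      obtain ⟨m, hm1, hm2⟩ := hf2 a b hab
      obtain ⟨m', hm1', hm2'⟩ := hf2 b c hbc
      have hmm : m < m' := by
        by_contra hle
        push Not at hle
        exact hm1' (hm2 m' hle)
      have hab' : f a ≠ f b := by
        intro hcon
        apply hm1
        rw [hcon]
        exact hm2 m le_rfl
      have hbc' : f b ≠ f c := by
        intro hcon
        apply hm1'
        rw [hcon]
        exact hm2' m' le_rfl
      have h3 := hA2 _ (hTA a ha) _ (hTA b hb) (by rw [(hf1 a).2.2, (hf1 b).2.2]) hab'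
      have h4 := hA2 _ (hTA b hb) _ (hTA c hc) (by rw [(hf1 b).2.2, (hf1 c).2.2]) hbc'
      rw [(hf1 a).2.2] at h3
      rw [(hf1 b).2.2] at h4
      have hl : l (σ 0) ≤ m := by
        by_contra hlt
        push Not at hlt
        have := h3.1 m hlt
        rw [hm2 m le_rfl] at this
        exact hm1 this
      apply h4.2
      rw [hm2 _ hl, hm2' _ (by omega)])
    rw [Finset.card_range] at h2
    have := norm_nonneg φ
    push_cast at h2
    linarith

/-- The counting argument of the finiteness lemma. -/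
lemma case_zero (φ : XX →L[ℝ] ℝ) (ε : ℝ) (N : ℕ) (hN : 2 * ‖φ‖ < N * ε)
    (D : ℕ → Dat) (nn : ℕ → ℕ) (hD : Function.Injective D)
    (hlarge : ∀ i, ∀ᶠ j in (u : Filter ℕ), ε ≤ |φ (e (pt (D i) (nn i) j))|) : False := by
  classical
  have hNpos : 0 < N := by
    rcases Nat.eq_zero_or_pos N with h | h
    · subst h
      have := norm_nonneg φ
      simp at hN
      linarith
    · exact h
  have hJ : ∀ᶠ j in (u : Filter ℕ), (∀ i ∈ Finset.range N, ε ≤ |φ (e (pt (D i) (nn i) j))|) ∧
      ∀ i ∈ Finset.range N, ∀ i' ∈ Finset.range N, i ≠ i' →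
        (pt (D i) (nn i) j).2 ≠ (pt (D i') (nn i') j).2 := by
    refine Filter.Eventually.and ?_ ?_
    · exact (Filter.eventually_all_finset _).2 (fun i _ => hlarge i)
    · refine (Filter.eventually_all_finset _).2 (fun i _ => ?_)
      refine (Filter.eventually_all_finset _).2 (fun i' _ => ?_)
      by_cases h : i = i'
      · exact Filter.Eventually.of_forall (fun j h' => absurd h h')
      · filter_upwards [hh_ne (fun hcon => h (hD hcon))] with j hj _
        exact hj
  have hu : NP u := by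
    intro x hx
    have h1 : ({x} : Set ℕ)ᶜ ∈ u := u_le (Set.finite_singleton x).compl_mem_cofinite
    exact (Ultrafilter.compl_mem_iff_notMem.1 h1) hx
  obtain ⟨T, hT, hTN⟩ := (hu.infinite hJ).exists_subset_card_eq N
  have hk := key (Finset.range N ×ˢ T) (fun q : ℕ × ℕ => pt (D q.1) (nn q.1) q.2) φ ε (by
    intro q hq
    rw [Finset.mem_product] at hq
    exact (hT (Finset.mem_coe.2 hq.2)).1 _ hq.1) (2 * N) (by
    intro A hA R hR hRA
    obtain ⟨l, β, hA1, hA2⟩ := hA
    rw [← Finset.card_filter_add_card_filter_not (s := R) (fun q => l (nn q.1) = (D q.1).l (nn q.1))]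
    have h1 : (R.filter (fun q => l (nn q.1) = (D q.1).l (nn q.1))).card ≤ N := by
      rw [← hTN]
      refine Finset.card_le_card_of_injOn Prod.snd (fun q hq => ?_) ?_
      · have := hR (Finset.mem_filter.1 hq).1
        exact (Finset.mem_product.1 this).2
      · rintro ⟨i, j⟩ hq ⟨i', j'⟩ hq' hqq
        have hjj : j = j' := hqq
        subst hjj
        have hq1 := Finset.mem_filter.1 (Finset.mem_coe.1 hq)
        have hq2 := Finset.mem_filter.1 (Finset.mem_coe.1 hq')
        have hi := Finset.mem_product.1 (hR hq1.1)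
        have hi' := Finset.mem_product.1 (hR hq2.1)
        by_contra hne
        have hii : i ≠ i' := fun hcon => hne (by rw [hcon])
        have hlab := (hT (Finset.mem_coe.2 hi.2)).2 i hi.1 i' hi'.1 hii
        apply hlab
        have e1 := hA1 _ (hRA _ hq1.1)
        have e2 := hA1 _ (hRA _ hq2.1)
        simp only [pt_zero] at e1 e2
        have f1 : l (nn i) = (D i).l (nn i) := hq1.2
        have f2 : l (nn i') = (D i').l (nn i') := hq2.2
        rw [f1, pt_l] at e1
        rw [f2, pt_l] at e2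
        rw [e1, e2]
    have h2 : (R.filter (fun q => ¬ l (nn q.1) = (D q.1).l (nn q.1))).card ≤ N := by
      rw [← Finset.card_range N]
      refine Finset.card_le_card_of_injOn Prod.fst (fun q hq => ?_) ?_
      · have := hR (Finset.mem_filter.1 hq).1
        exact (Finset.mem_product.1 this).1
      · rintro ⟨i, j⟩ hq ⟨i', j'⟩ hq' hqq
        have hii : i = i' := hqq
        subst hii
        have hq1 := Finset.mem_filter.1 (Finset.mem_coe.1 hq)
        have hq2 := Finset.mem_filter.1 (Finset.mem_coe.1 hq')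
        by_contra hne
        have hjj : j ≠ j' := fun hcon => hne (by rw [hcon])
        exact hq1.2 (level_eq hA2 (D i) (nn i) hjj (hRA _ hq1.1) (hRA _ hq2.1))
    omega)
  rw [Finset.card_product, Finset.card_range, hTN] at hk
  push_cast at hk
  have hNr : (0 : ℝ) < N := Nat.cast_pos.2 hNpos
  have h3 : (N : ℝ) * (2 * ‖φ‖) < N * (N * ε) := mul_lt_mul_of_pos_left hN hNr
  nlinarith

/-- Finiteness lemma: for a functional `φ` and `ε > 0`, only finitely many `d` have a row on which
`φ` is at least `ε` in absolute value along the ultrafilter. -/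
lemma finite_large (φ : XX →L[ℝ] ℝ) (ε : ℝ) (hε : 0 < ε) :
    {d : Dat | ∃ n, ∀ᶠ j in (u : Filter ℕ), ε ≤ |φ (e (pt d n j))|}.Finite := by
  classical
  by_contra hinf
  rw [← Set.Infinite] at hinf
  obtain ⟨N, hN⟩ := exists_nat_gt (2 * ‖φ‖ / ε)
  rw [div_lt_iff₀ hε] at hN
  let D : ℕ → Dat := fun k => (hinf.natEmbedding _ k).1
  have hDinj : Function.Injective D := fun a b h => (hinf.natEmbedding _).injective (Subtype.ext h)
  have hD : ∀ k, ∃ n, ∀ᶠ j in (u : Filter ℕ), ε ≤ |φ (e (pt (D k) n j))| :=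
    fun k => (hinf.natEmbedding _ k).2
  choose nn hnn using hD
  exact case_zero φ ε N hN D nn hDinj hnn

end Pool.Agent.Lib.P50089e
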