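import Mathlib

/-!
# The Banach space

`Γ = (ℕ → ℕ) × W`, admissible subsets of `Γ`, and the closed span `XX` of the coordinate functions
in the bounded functions on the set of signed admissible sets.
-/

set_option autoImplicit false
open Filter Topology Set

namespace Pool.Agent.Lib.P50089e

/-- The set of labels. -/
abbrev W : Type := ℕ → ℕ

/-- The index set of the unconditional basis. -/
abbrev Γ : Type := (ℕ → ℕ) × W

/-- Admissible sets. -/
def Adm (A : Set Γ) : Prop :=
  ∃ (l : ℕ → ℕ) (β : ℕ → W), (∀ a ∈ A, a.2 = β (a.1 (l (a.1 0)))) ∧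
    ∀ a ∈ A, ∀ b ∈ A, a.1 0 = b.1 0 → a ≠ b →
      (∀ m < l (a.1 0), a.1 m = b.1 m) ∧ a.1 (l (a.1 0)) ≠ b.1 (l (a.1 0))

lemma Adm.mono {A B : Set Γ} (h : Adm B) (hAB : A ⊆ B) : Adm A := by
  obtain ⟨l, β, h1, h2⟩ := h
  exact ⟨l, β, fun a ha => h1 a (hAB ha), fun a ha b hb => h2 a (hAB ha) b (hAB hb)⟩

lemma adm_singleton (x : Γ) : Adm {x} := by
  refine ⟨fun _ => 0, fun _ => x.2, ?_, ?_⟩
  · intro a ha
    rw [mem_singleton_iff.1 ha]
  · intro a ha b hb _ hab
    exact absurd ((mem_singleton_iff.1 ha).trans (mem_singleton_iff.1 hb).symm) hab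

/-- Signed admissible sets (more generally functions bounded by one with admissible support). -/
structure Sg where
  fn : Γ → ℝ
  le_one : ∀ x, |fn x| ≤ 1
  adm : Adm {x | fn x ≠ 0}

instance : TopologicalSpace Sg := ⊥
instance : DiscreteTopology Sg := ⟨rfl⟩

/-- Bounded functions on `Sg`. -/
abbrev E0 : Type := BoundedContinuousFunction Sg ℝ

/-- The coordinate function. -/
noncomputable def ev0 (x : Γ) : E0 :=
  BoundedContinuousFunction.ofNormedAddCommGroupDiscrete (fun ψ => ψ.fn x) 1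
    (fun ψ => by rw [Real.norm_eq_abs]; exact ψ.le_one x)

@[simp] lemma ev0_apply (x : Γ) (ψ : Sg) : ev0 x ψ = ψ.fn x := rfl

/-- The closed span of the coordinate functions. -/
noncomputable def SX : Submodule ℝ E0 := (Submodule.span ℝ (range ev0)).topologicalClosure

/-- The Banach space. -/
def XX : Type := SX

noncomputable instance : NormedAddCommGroup XX := inferInstanceAs (NormedAddCommGroup SX)
noncomputable instance : NormedSpace ℝ XX := inferInstanceAs (NormedSpace ℝ SX)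
instance : CompleteSpace XX := by
  have : IsClosed (SX : Set E0) := Submodule.isClosed_topologicalClosure _
  exact this.completeSpace_coe

lemma ev0_mem (x : Γ) : ev0 x ∈ SX :=
  Submodule.le_topologicalClosure _ (Submodule.subset_span ⟨x, rfl⟩)

/-- The unit vectors. -/
noncomputable def e (x : Γ) : XX := (⟨ev0 x, ev0_mem x⟩ : SX)

/-- The underlying bounded function. -/
noncomputable def up : XX →L[ℝ] E0 :=
  LinearMap.mkContinuous
    { toFun := fun f => Subtype.val (p := fun g : E0 => g ∈ SX) f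
      map_add' := fun _ _ => rfl
      map_smul' := fun _ _ => rfl } 1 (by
    intro f
    rw [one_mul]
    exact le_rfl)

lemma up_e (x : Γ) : up (e x) = ev0 x := rfl

lemma norm_up (f : XX) : ‖up f‖ = ‖f‖ := rfl

lemma up_mem (f : XX) : up f ∈ SX := Subtype.property (p := fun g : E0 => g ∈ SX) f

lemma up_inj {f g : XX} (h : up f = up g) : f = g := Subtype.ext h

/-- Evaluation at a signed admissible set. -/
noncomputable def dl (ψ : Sg) : XX →L[ℝ] ℝ :=
  LinearMap.mkContinuous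
    { toFun := fun f => up f ψ
      map_add' := fun _ _ => rfl
      map_smul' := fun _ _ => rfl } 1 (by
    intro f
    rw [one_mul]
    exact (up f).norm_coe_le_norm ψ)

lemma dl_apply (ψ : Sg) (f : XX) : dl ψ f = up f ψ := rfl

lemma dl_e (ψ : Sg) (x : Γ) : dl ψ (e x) = ψ.fn x := rfl

lemma abs_dl_le (ψ : Sg) (f : XX) : |dl ψ f| ≤ ‖f‖ := (up f).norm_coe_le_norm ψ

lemma norm_le_of (f : XX) (B : ℝ) (hB : 0 ≤ B) (h : ∀ ψ, |dl ψ f| ≤ B) : ‖f‖ ≤ B := by
  rw [← norm_up, BoundedContinuousFunction.norm_le hB]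
  intro ψ
  rw [Real.norm_eq_abs]
  exact h ψ

lemma norm_e_le (x : Γ) : ‖e x‖ ≤ 1 :=
  norm_le_of _ 1 zero_le_one (fun ψ => by rw [dl_e]; exact ψ.le_one x)

/-- The indicator of an admissible set. -/
noncomputable def indA (A : Set Γ) (hA : Adm A) : Sg where
  fn := A.indicator 1
  le_one := fun x => by
    by_cases hx : x ∈ A
    · simp [hx]
    · simp [hx]
  adm := hA.mono (fun x hx => by
    by_contra h
    exact hx (indicator_of_notMem h _))

/-- The coordinate functionals. -/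
noncomputable def co (x : Γ) : XX →L[ℝ] ℝ := dl (indA {x} (adm_singleton x))

open Classical in
lemma co_e (x y : Γ) : co x (e y) = if y = x then 1 else 0 := by
  unfold co
  rw [dl_e]
  unfold indA
  by_cases h : y = x
  · simp [h]
  · simp [h]

/-- Restriction of a signed admissible set. -/
noncomputable def res (D : Set Γ) (ψ : Sg) : Sg where
  fn := D.indicator ψ.fn
  le_one := fun x => by
    by_cases hx : x ∈ D
    · rw [indicator_of_mem hx]; exact ψ.le_one x
    · rw [indicator_of_notMem hx]; simp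
  adm := ψ.adm.mono (fun x hx => by
    intro h
    apply hx
    by_cases hx' : x ∈ D
    · rw [indicator_of_mem hx']; exact h
    · rw [indicator_of_notMem hx'])

/-- The projection on the ambient space. -/
noncomputable def PD0 (D : Set Γ) : E0 →L[ℝ] E0 :=
  LinearMap.mkContinuous
    { toFun := fun f => f.compContinuous ⟨res D, continuous_of_discreteTopology⟩
      map_add' := fun _ _ => rfl
      map_smul' := fun _ _ => rfl } 1 (by
    intro f
    rw [one_mul]
    refine (BoundedContinuousFunction.norm_le (norm_nonneg _)).2 (fun ψ => ?_)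
    exact f.norm_coe_le_norm _)

lemma PD0_apply (D : Set Γ) (f : E0) (ψ : Sg) : PD0 D f ψ = f (res D ψ) := rfl

lemma PD0_ev0_mem (D : Set Γ) {x : Γ} (hx : x ∈ D) : PD0 D (ev0 x) = ev0 x := by
  ext ψ
  rw [PD0_apply, ev0_apply, ev0_apply]
  exact indicator_of_mem hx _

lemma PD0_ev0_notMem (D : Set Γ) {x : Γ} (hx : x ∉ D) : PD0 D (ev0 x) = 0 := by
  ext ψ
  rw [PD0_apply, ev0_apply]
  exact indicator_of_notMem hx _

lemma PD0_mem (D : Set Γ) {f : E0} (hf : f ∈ SX) : PD0 D f ∈ SX := by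
  have hf' : f ∈ closure (Submodule.span ℝ (range ev0) : Set E0) := hf
  have : PD0 D f ∈ closure (Submodule.span ℝ (range ev0) : Set E0) := by
    refine map_mem_closure (PD0 D).continuous hf' ?_
    intro g hg
    refine Submodule.span_induction (p := fun g _ => PD0 D g ∈ Submodule.span ℝ (range ev0))
      ?_ ?_ ?_ ?_ hg
    · rintro _ ⟨x, rfl⟩
      by_cases hx : x ∈ D
      · rw [PD0_ev0_mem D hx]
        exact Submodule.subset_span ⟨x, rfl⟩
      · rw [PD0_ev0_notMem D hx]
        exact Submodule.zero_mem _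
    · rw [map_zero]; exact Submodule.zero_mem _
    · intro a b _ _ ha hb
      rw [map_add]; exact Submodule.add_mem _ ha hb
    · intro c a _ ha
      rw [map_smul]; exact Submodule.smul_mem _ c ha
  exact this

/-- The projection onto the coordinates in `D`. -/
noncomputable def PD (D : Set Γ) : XX →L[ℝ] XX :=
  LinearMap.mkContinuous
    { toFun := fun f => (⟨PD0 D (up f), PD0_mem D (up_mem f)⟩ : SX)
      map_add' := fun f g => by
        refine up_inj ?_
        change PD0 D (up (f + g)) = PD0 D (up f) + PD0 D (up g)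
        rw [map_add, map_add]
      map_smul' := fun c f => by
        refine up_inj ?_
        change PD0 D (up (c • f)) = c • PD0 D (up f)
        rw [map_smul, map_smul] } 1 (by
    intro f
    rw [one_mul]
    change ‖PD0 D (up f)‖ ≤ ‖up f‖
    refine (BoundedContinuousFunction.norm_le (norm_nonneg _)).2 (fun ψ => ?_)
    rw [PD0_apply]
    exact (up f).norm_coe_le_norm _)

lemma dl_PD (D : Set Γ) (ψ : Sg) (f : XX) : dl ψ (PD D f) = dl (res D ψ) f := rfl

lemma norm_PD_le (D : Set Γ) (f : XX) : ‖PD D f‖ ≤ ‖f‖ :=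
  norm_le_of _ _ (norm_nonneg _) (fun ψ => by rw [dl_PD]; exact abs_dl_le _ _)

lemma PD_e_mem (D : Set Γ) {x : Γ} (hx : x ∈ D) : PD D (e x) = e x :=
  up_inj (PD0_ev0_mem D hx)

lemma PD_e_notMem (D : Set Γ) {x : Γ} (hx : x ∉ D) : PD D (e x) = 0 :=
  up_inj ((PD0_ev0_notMem D hx).trans (map_zero up).symm)

/-- Finite sums are dense. -/
lemma exists_approx (f : XX) {ε : ℝ} (hε : 0 < ε) :
    ∃ (S : Finset Γ) (c : Γ → ℝ), ‖f - ∑ x ∈ S, c x • e x‖ < ε := by
  have hf : up f ∈ closure (Submodule.span ℝ (range ev0) : Set E0) := up_mem f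
  obtain ⟨g, hg, hgf⟩ := Metric.mem_closure_iff.1 hf ε hε
  have hg' : g ∈ Submodule.span ℝ (range ev0) := hg
  rw [Finsupp.mem_span_range_iff_exists_finsupp] at hg'
  obtain ⟨c, hc⟩ := hg'
  refine ⟨c.support, c, ?_⟩
  rw [← norm_up]
  have h1 : up (f - ∑ x ∈ c.support, c x • e x) = up f - g := by
    rw [← hc, Finsupp.sum, map_sub, map_sum]
    simp only [map_smul, up_e]
  rw [h1, ← dist_eq_norm]
  exact hgf

lemma dl_finite (S : Finset Γ) (ψ : Sg) (f : XX) :
    dl (res (S : Set Γ) ψ) f = ∑ x ∈ S, ψ.fn x * co x f := by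
  -- both sides are continuous linear functionals agreeing on the unit vectors
  classical
  let φ : XX →L[ℝ] ℝ := dl (res (S : Set Γ) ψ) - ∑ x ∈ S, ψ.fn x • co x
  have hφ : ∀ y, φ (e y) = 0 := by
    intro y
    simp only [φ, sub_apply, sum_apply,
      smul_apply, smul_eq_mul, co_e, dl_e]
    by_cases hy : y ∈ S
    · have : (res (S : Set Γ) ψ).fn y = ψ.fn y := indicator_of_mem (Finset.mem_coe.2 hy) _
      rw [this]
      simp [hy]
    · have : (res (S : Set Γ) ψ).fn y = 0 := indicator_of_notMem (by simpa using hy) _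
      rw [this]
      simp [hy]
  have h0 : φ f = 0 := by
    by_contra hne
    have hpos : 0 < |φ f| := abs_pos.2 hne
    obtain ⟨T, c, hT⟩ := exists_approx f (ε := |φ f| / (‖φ‖ + 1)) (by positivity)
    have h1 : φ (∑ x ∈ T, c x • e x) = 0 := by
      rw [map_sum]
      refine Finset.sum_eq_zero (fun x _ => ?_)
      rw [map_smul, hφ, smul_zero]
    have h2 : φ f = φ (f - ∑ x ∈ T, c x • e x) := by rw [map_sub, h1, sub_zero]
    have h3 : |φ f| ≤ ‖φ‖ * ‖f - ∑ x ∈ T, c x • e x‖ := by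
      conv_lhs => rw [h2]
      exact φ.le_opNorm _
    have h4 : ‖φ‖ * ‖f - ∑ x ∈ T, c x • e x‖ ≤ ‖φ‖ * (|φ f| / (‖φ‖ + 1)) :=
      mul_le_mul_of_nonneg_left hT.le (norm_nonneg _)
    have h5 : ‖φ‖ * (|φ f| / (‖φ‖ + 1)) < |φ f| := by
      rw [← mul_div_assoc, div_lt_iff₀ (by positivity)]
      nlinarith [norm_nonneg φ]
    linarith
  have h6 : φ f = dl (res (S : Set Γ) ψ) f - ∑ x ∈ S, ψ.fn x * co x f := by
    simp [φ, sum_apply]
  rw [h6] at h0
  linarith

/-- The coordinates separate the points. -/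
lemma eq_zero_of_co (f : XX) (h : ∀ x, co x f = 0) : f = 0 := by
  classical
  rw [← norm_eq_zero]
  by_contra hne
  have hpos : 0 < ‖f‖ := lt_of_le_of_ne (norm_nonneg _) (Ne.symm hne)
  obtain ⟨S, c, hS⟩ := exists_approx f (ε := ‖f‖ / 2) (by positivity)
  set g : XX := ∑ x ∈ S, c x • e x with hg
  have h1 : PD (S : Set Γ) f = 0 := by
    rw [← norm_eq_zero]
    refine le_antisymm (norm_le_of _ 0 le_rfl (fun ψ => ?_)) (norm_nonneg _)
    rw [dl_PD, dl_finite]
    simp [h]
  have h2 : PD (S : Set Γ) g = g := by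
    rw [hg, map_sum]
    refine Finset.sum_congr rfl (fun x hx => ?_)
    rw [map_smul, PD_e_mem _ (Finset.mem_coe.2 hx)]
  have h3 : ‖g‖ ≤ ‖f - g‖ := by
    have : PD (S : Set Γ) (f - g) = -g := by rw [map_sub, h1, h2, zero_sub]
    calc ‖g‖ = ‖PD (S : Set Γ) (f - g)‖ := by rw [this, norm_neg]
      _ ≤ ‖f - g‖ := norm_PD_le _ _
  have h4 : ‖f‖ ≤ ‖f - g‖ + ‖g‖ := by
    calc ‖f‖ = ‖(f - g) + g‖ := by rw [sub_add_cancel]
      _ ≤ _ := norm_add_le _ _
  linarith

/-- The norm estimate. -/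
lemma norm_sum_le {ι : Type*} (I : Finset ι) (x : ι → Γ) (c : ι → ℝ) (hc : ∀ i, |c i| ≤ 1) (B : ℕ)
    (hB : ∀ A, Adm A → ∀ T ⊆ I, (∀ i ∈ T, x i ∈ A) → T.card ≤ B) :
    ‖∑ i ∈ I, c i • e (x i)‖ ≤ B := by
  classical
  refine norm_le_of _ _ (Nat.cast_nonneg _) (fun ψ => ?_)
  rw [map_sum]
  simp only [map_smul, dl_e, smul_eq_mul]
  refine (Finset.abs_sum_le_sum_abs _ _).trans ?_
  have h1 : ∑ i ∈ I, |c i * ψ.fn (x i)| ≤ ∑ i ∈ I, if ψ.fn (x i) ≠ 0 then (1 : ℝ) else 0 := by
    refine Finset.sum_le_sum (fun i _ => ?_)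
    split_ifs with h
    · rw [abs_mul]
      calc |c i| * |ψ.fn (x i)| ≤ 1 * 1 :=
            mul_le_mul (hc i) (ψ.le_one _) (abs_nonneg _) zero_le_one
        _ = 1 := one_mul 1
    · push Not at h
      rw [h]; simp
  refine h1.trans ?_
  rw [← Finset.sum_filter, Finset.sum_const, nsmul_eq_mul, mul_one, Nat.cast_le]
  refine hB _ ψ.adm _ (Finset.filter_subset _ _) (fun i hi => ?_)
  exact (Finset.mem_filter.1 hi).2

/-- The key lemma: a functional large on many unit vectors. -/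
lemma key {ι : Type*} (I : Finset ι) (x : ι → Γ) (φ : XX →L[ℝ] ℝ) (ε : ℝ)
    (hφ : ∀ i ∈ I, ε ≤ |φ (e (x i))|) (B : ℕ)
    (hB : ∀ A, Adm A → ∀ T ⊆ I, (∀ i ∈ T, x i ∈ A) → T.card ≤ B) :
    ε * I.card ≤ ‖φ‖ * B := by
  classical
  let c : ι → ℝ := fun i => SignType.sign (φ (e (x i)))
  have hc : ∀ i, |c i| ≤ 1 := by
    intro i
    simp only [c]
    rcases lt_trichotomy (φ (e (x i))) 0 with h | h | h
    · simp [h]
    · simp [h]
    · simp [h]
  have h1 := norm_sum_le I x c hc B hB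
  have h2 : φ (∑ i ∈ I, c i • e (x i)) = ∑ i ∈ I, |φ (e (x i))| := by
    rw [map_sum]
    refine Finset.sum_congr rfl (fun i _ => ?_)
    rw [map_smul, smul_eq_mul]
    simp only [c]
    exact sign_mul_self _
  have h3 : ∑ i ∈ I, |φ (e (x i))| ≤ ‖φ‖ * B := by
    rw [← h2]
    refine (le_abs_self _).trans ((φ.le_opNorm _).trans ?_)
    exact mul_le_mul_of_nonneg_left h1 (norm_nonneg _)
  have h4 : ε * I.card ≤ ∑ i ∈ I, |φ (e (x i))| := by
    calc ε * I.card = ∑ i ∈ I, ε := by rw [Finset.sum_const, nsmul_eq_mul, mul_comm]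
      _ ≤ _ := Finset.sum_le_sum hφ
  linarith

end Pool.Agent.Lib.P50089e
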